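import Pool.Agent.helper99.PLR.Spec

set_option autoImplicit false

open scoped Classical

namespace Pool.Agent.PLR

open Finset
open Pool.Agent.helper65.HC (V IsEig IsTop lam)
open Pool.Agent.helper9.HQ (Fam Dn E N Le Eig lk)
open Pool.Agent.helper9.HX (Ef)
open Pool.Agent.helper9.HLR (cel Lc)

noncomputable section

theorem CBA_mono {d : ℕ} {L : Fam d} {a b : ℝ} (h : Le L a) (hab : a ≤ b) : Le L b := by
  intro f
  refine (h f).trans (mul_le_mul_of_nonneg_right hab ?_)
  unfold N
  exact Finset.sum_nonneg fun _ _ => sq_nonneg _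

/-- `upk ≤ b` -/
theorem CBA_upk_le {d : ℕ} (k : ℕ) (w : Finset (Fin d)) (U : Fam d) : upk k w U ≤ d.choose k := by
  unfold upk
  calc _ ≤ ((univ : Finset (Fin d)).powersetCard k).card := by
        apply Finset.card_le_card
        intro x hx
        rw [Finset.mem_filter] at hx
        exact Finset.mem_powersetCard.2 ⟨Finset.subset_univ x, hx.2.1⟩
    _ = d.choose k := by rw [Finset.card_powersetCard, Finset.card_univ, Fintype.card_fin]

/-- the error term -/
theorem CBA_err {d k : ℕ} {K C n : ℝ} (hd : 1 ≤ d) (hC : 0 ≤ C)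
    (hn : n ≤ (K + 1) * (d : ℝ) ^ k) :
    C * n / (√d * (d : ℝ) ^ k) ≤ C * (K + 1) / √d := by
  have hd0 : (0 : ℝ) < d := by exact_mod_cast hd
  have hs : 0 < √(d : ℝ) := Real.sqrt_pos.2 hd0
  have hp : 0 < (d : ℝ) ^ k := pow_pos hd0 k
  rw [div_le_div_iff₀ (mul_pos hs hp) hs]
  calc C * n * √d ≤ C * ((K + 1) * (d : ℝ) ^ k) * √d :=
        mul_le_mul_of_nonneg_right (mul_le_mul_of_nonneg_left hn hC) hs.le
    _ = C * (K + 1) * (√d * (d : ℝ) ^ k) := by ring

theorem CBA (hCLA : CLA_stmt) (hCLB : CLB_stmt) (hUPA : UPA_stmt) (hCLK : CLK_stmt)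
    (hCRA : CRA_stmt) : CBA_stmt := by
  intro k K hk hK
  have hKr : (1 : ℝ) ≤ K := by exact_mod_cast hK
  set κ : ℝ := 1 / (2 * ((K : ℝ) + 2)) with hκ
  have hκ0 : 0 < κ := by rw [hκ]; positivity
  have hκ1 : κ ≤ 1 := by
    rw [hκ, div_le_one (by positivity)]
    linarith
  obtain ⟨cA, thA, hcA0, hcA1, hthA, dA, hA⟩ := hCLA k hk κ hκ0 hκ1
  obtain ⟨c, C, thB, hc0, hC0, hthB, dB, hB⟩ := hCLB k hk κ hκ0 hκ1
  obtain ⟨dC, hcra⟩ := hCRA k K hk hK
  obtain ⟨n₀, hn₀⟩ := exists_nat_gt (((K : ℝ) + 1) / min thA thB)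
  have hth : 0 < min thA thB := lt_min hthA hthB
  set c₁ : ℝ := min (cA / (K + 1)) (c / (K + 1)) with hc₁
  have hK1 : (0 : ℝ) < (K : ℝ) + 1 := by linarith
  have hc10 : 0 < c₁ := lt_min (div_pos hcA0 hK1) (div_pos hc0 hK1)
  have hc1A : c₁ * (K + 1) ≤ cA := by
    have := min_le_left (cA / ((K : ℝ) + 1)) (c / (K + 1))
    rw [← hc₁, le_div_iff₀ hK1] at this
    exact this
  have hc1B : c₁ ≤ c / (K + 1) := min_le_right _ _
  refine ⟨C * (K + 1) + c * K * k, c₁, max dA (max dB (max dC (n₀ + 1))), by positivity, hc10, ?_⟩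
  intro d hd U hU hUc
  have hdA : dA ≤ d := (le_max_left _ _).trans hd
  have hd2 := (le_max_right _ _).trans hd
  have hdB : dB ≤ d := (le_max_left _ _).trans hd2
  have hd3 := (le_max_right _ _).trans hd2
  have hdC : dC ≤ d := (le_max_left _ _).trans hd3
  have hdn : n₀ + 1 ≤ d := (le_max_right _ _).trans hd3
  have hd1 : 1 ≤ d := by omega
  have hd0 : (0 : ℝ) < d := by exact_mod_cast hd1
  have hs : 0 < √(d : ℝ) := Real.sqrt_pos.2 hd0
  have hss : √(d : ℝ) * √(d : ℝ) = d := Real.mul_self_sqrt hd0.le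
  obtain ⟨hSK, B, hBc, hBK, hBw⟩ := hcra d hdC U hU hUc
  rw [← hκ] at hSK hBc hBw
  obtain ⟨-, -, hwS⟩ := hUPA d k U κ hU
  set S : Finset (Fin d) := Sc k κ U with hS
  set b : ℝ := (d.choose k : ℝ) with hb
  have hUc' : (U.card : ℝ) < (K + 1) * b := by rw [hb]; exact_mod_cast hUc
  have hU0 : (0 : ℝ) ≤ U.card := Nat.cast_nonneg _
  have hb0 : 0 < b := by
    by_contra hcon
    push Not at hcon
    have : ((K : ℝ) + 1) * b ≤ 0 := mul_nonpos_of_nonneg_of_nonpos hK1.le hcon
    linarith
  have hbd : b ≤ (d : ℝ) ^ k := by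
    rw [hb]
    exact_mod_cast Nat.choose_le_pow d k
  have hUd : (U.card : ℝ) ≤ (K + 1) * (d : ℝ) ^ k :=
    hUc'.le.trans (mul_le_mul_of_nonneg_left hbd hK1.le)
  have hKd : (K : ℝ) + 1 ≤ min thA thB * d := by
    rw [div_lt_iff₀ hth] at hn₀
    have h1 : (n₀ : ℝ) ≤ d := by exact_mod_cast (by omega : n₀ ≤ d)
    calc (K : ℝ) + 1 ≤ n₀ * min thA thB := hn₀.le
      _ ≤ d * min thA thB := mul_le_mul_of_nonneg_right h1 hth.le
      _ = _ := by ring
  have hUth : (U.card : ℝ) ≤ min thA thB * (d : ℝ) ^ (k + 1) := by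
    calc (U.card : ℝ) ≤ (K + 1) * (d : ℝ) ^ k := hUd
      _ ≤ (min thA thB * d) * (d : ℝ) ^ k := mul_le_mul_of_nonneg_right hKd (by positivity)
      _ = _ := by ring
  set t : ℝ := (K + 1) * b - U.card with ht
  have ht0 : 0 < t := by linarith
  have htb : t / b ≤ K + 1 := by
    rw [div_le_iff₀ hb0]
    linarith
  have htb0 : 0 ≤ t / b := by positivity
  have hup : ∀ w, w ∉ core k κ U → (upk k w U : ℝ) ≤ (1 - κ) * b := by
    intro w hw
    by_cases hwU : w ∈ U
    · by_contra hcon
      push Not at hcon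
      apply hw
      unfold core
      rw [Finset.mem_filter]
      exact ⟨hwU, hcon.le⟩
    · have h1 : upk k w U = 0 := by
        unfold upk
        rw [Finset.card_eq_zero, Finset.filter_eq_empty_iff]
        intro x _ hx
        exact hwU (hU _ hx.2.2 _ Finset.subset_union_right)
      rw [h1, Nat.cast_zero]
      have : 0 ≤ 1 - κ := by linarith
      positivity
  have hupb : ∀ w, (upk k w U : ℝ) ≤ b := by
    intro w
    rw [hb]
    exact_mod_cast CBA_upk_le k w U
  -- cells outside the core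
  have hout : ∀ w, w ⊆ S → w ∉ core k κ U → Le (Lc S w U) ((hz (k + 1) - cA) * √d) := by
    intro w hw hwc
    obtain ⟨h1, h2, h3, -, -⟩ := hCLK d k U S w hU hw
    refine hA d hdA _ h1 ?_ ?_
    · have h4 : ((Lc S w U).card : ℝ) ≤ U.card := by exact_mod_cast h2
      refine (h4.trans hUth).trans ?_
      exact mul_le_mul_of_nonneg_right (min_le_left _ _) (by positivity)
    · have : (lev k (Lc S w U) : ℝ) ≤ upk k w U := by exact_mod_cast h3
      exact this.trans (hup w hwc)
  have hin : ∀ (w : Finset (Fin d)) (tau : ℝ), w ∈ core k κ U → 0 ≤ tau → tau ≤ 1 →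
      (upk k w U : ℝ) ≤ (1 - tau) * b →
      Le (Lc S w U) ((hz (k + 1) - c * tau) * √d + C * (K + 1) / √d) := by
    intro w tau hwc ht0 ht1 hwt
    have hw := hwS w hwc
    obtain ⟨h1, h2, h3, h4, h5⟩ := hCLK d k U S w hU hw
    have h2' : ((Lc S w U).card : ℝ) ≤ U.card := by exact_mod_cast h2
    have h3' : (lev k (Lc S w U) : ℝ) ≤ upk k w U := by exact_mod_cast h3
    have h6 := hB d hdB (Lc S w U) tau h1
      ((h2'.trans hUth).trans (mul_le_mul_of_nonneg_right (min_le_right _ _) (by positivity))) (by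
      intro i
      by_cases hi : i ∈ S
      · rw [h4 i hi, Nat.cast_zero]
        have : 0 ≤ 1 - κ := by linarith
        positivity
      · have h7 : (lev k (lk i (Lc S w U)) : ℝ) ≤ upk k (insert i w) U := by exact_mod_cast h5 i hi
        refine h7.trans (hup _ ?_)
        intro h8
        exact hi (hwS _ h8 (Finset.mem_insert_self i w))) ht0 ht1 (h3'.trans hwt)
    refine CBA_mono h6 ?_
    have := CBA_err hd1 hC0.le (h2'.trans hUd)
    linarith
  have hR0 : 0 ≤ c * K * k / √d := by positivity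
  have hRs : (C * (K + 1) + c * K * k) / √d = C * (K + 1) / √d + c * K * k / √d := by
    rw [add_div]
  have hCK : 0 ≤ C * ((K : ℝ) + 1) / √d := by positivity
  refine ⟨S, B, hSK, hBK, fun w hw => hwS w (hBc hw), ?_, ?_⟩
  · intro w hw
    by_cases hwc : w ∈ core k κ U
    · refine CBA_mono (hin w 0 hwc le_rfl zero_le_one (by linarith [hupb w])) ?_
      rw [hRs]
      linarith
    · refine CBA_mono (hout w hw hwc) ?_
      have : 0 ≤ cA * √d := by positivity
      rw [hRs]
      linarith
  · intro w hw hwB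
    by_cases hwc : w ∈ core k κ U
    · have h1 := hBw w hwc hwB
      set e : ℝ := t / ((K + 1) * b) - K * k / d with he
      have hKb : 0 < ((K : ℝ) + 1) * b := by positivity
      have h2 : (upk k w U : ℝ) ≤ (1 - e) * b := by
        have h3 : ((K : ℝ) + 1) * ((1 - e) * b) = U.card + (K + 1) * K * k * b / d := by
          rw [he]
          have h4 : t / ((K + 1) * b) * ((K + 1) * b) = t := by field_simp
          have h5 : ((K : ℝ) + 1) * ((1 - (t / ((K + 1) * b) - K * k / d)) * b) =
              (K + 1) * b - t / ((K + 1) * b) * ((K + 1) * b) + (K + 1) * K * k * b / d := by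
            ring
          rw [h5, h4, ht]
          ring
        by_contra hcon
        push Not at hcon
        have := mul_lt_mul_of_pos_left hcon hK1
        linarith
      have he1 : e ≤ 1 := by
        have h3 : t / ((K + 1) * b) ≤ 1 := by
          rw [div_le_one hKb]
          linarith
        have h4 : 0 ≤ (K : ℝ) * k / d := by positivity
        linarith
      have h6 : (upk k w U : ℝ) ≤ (1 - max 0 e) * b := by
        rcases le_total 0 e with h | h
        · rw [max_eq_right h]
          exact h2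
        · rw [max_eq_left h]
          linarith [hupb w]
      refine CBA_mono (hin w (max 0 e) hwc (le_max_left _ _) (max_le zero_le_one he1) h6) ?_
      have h7 : c * e * √d ≤ c * max 0 e * √d :=
        mul_le_mul_of_nonneg_right (mul_le_mul_of_nonneg_left (le_max_right _ _) hc0.le) hs.le
      have h8 : c * e * √d = c / (K + 1) * √d * (t / b) - c * K * k / √d := by
        rw [he]
        have h9 : c * (K * k / (d : ℝ)) * √d = c * K * k / √d := by
          have : (d : ℝ) ≠ 0 := hd0.ne'
          have h10 : √(d : ℝ) ≠ 0 := hs.ne'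
          rw [eq_div_iff h10]
          calc c * (K * k / (d : ℝ)) * √d * √d = c * (K * k / (d : ℝ)) * (√d * √d) := by ring
            _ = c * K * k := by rw [hss]; field_simp
        have h11 : c * (t / ((K + 1) * b)) * √d = c / (K + 1) * √d * (t / b) := by
          field_simp
        calc c * (t / ((K + 1) * b) - K * k / d) * √d =
            c * (t / ((K + 1) * b)) * √d - c * (K * k / (d : ℝ)) * √d := by ring
          _ = _ := by rw [h9, h11]
      have h12 : c₁ * √d * (t / b) ≤ c / (K + 1) * √d * (t / b) :=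
        mul_le_mul_of_nonneg_right (mul_le_mul_of_nonneg_right hc1B hs.le) htb0
      rw [hRs]
      nlinarith
    · refine CBA_mono (hout w hw hwc) ?_
      have h1 : c₁ * √d * (t / b) ≤ c₁ * √d * (K + 1) :=
        mul_le_mul_of_nonneg_left htb (by positivity)
      have h2 : c₁ * √d * (K + 1) ≤ cA * √d := by
        calc c₁ * √d * (K + 1) = c₁ * (K + 1) * √d := by ring
          _ ≤ cA * √d := mul_le_mul_of_nonneg_right hc1A hs.le
      rw [hRs]
      linarith

end

end Pool.Agent.PLR
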